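import Pool.Agent.Lib.MP_35a676_lc.Trees
import Pool.Agent.Lib.MP_35a676_lc.Ultra
import Pool.Agent.Lib.MP_35a676_lc.AD

namespace Pool.Agent.Results.MP_35a676_lc.Centered

open Cardinal Set Pool.Agent.Lib.MP_35a676_lc

/-- Let `𝒜` be a maximal ideal independent family. If infinitely many members `A` of `𝒜` have the
property that every centered subfamily of `𝒜` containing `A` has size less than `𝔲`, then `𝒜` has
size continuum, and in particular `𝔞 ≤ |𝒜|`. -/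
theorem result (𝒜 : Set (Set ℕ)) (h : MaxIdealIndep 𝒜)
    (hG : {A | A ∈ 𝒜 ∧ ∀ 𝒞 : Set (Set ℕ), 𝒞 ⊆ 𝒜 → Centered 𝒞 → A ∈ 𝒞 →
      #𝒞 < uNum}.Infinite) :
    #𝒜 = 𝔠 ∧ aNum ≤ #𝒜 := by
  have h1 : 𝔠 ≤ #𝒜 := by
    refine continuum_le_of_frequently_split h ?_
    intro k
    refine hG.mono ?_
    rintro A ⟨hA, hc⟩
    refine ⟨hA, ?_⟩
    refine split_of_splits ?_ k A le_rfl (h.1.2 A hA)
    intro Z hZA hZ
    by_contra hcon
    refine exists_centered hA hZA hZ ?_ hc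
    intro X Y hX hY hXY hPX hPY
    exact hcon ⟨X, Y, hX, hY, hXY, hPX, hPY⟩
  exact ⟨le_antisymm (mk_le_continuum 𝒜) h1, aNum_le_continuum.trans h1⟩

end Pool.Agent.Results.MP_35a676_lc.Centered
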