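import Pool.Agent.Lib.MP_35a676_lc.Branches

namespace Pool.Agent.Results.MP_35a676_lc.LocalStructure

open Cardinal Set Pool.Agent.Lib.MP_35a676_lc

/-- Let `𝒜` be a maximal ideal independent family of size less than continuum and let `A n` be
distinct members of `𝒜`. There is an infinite set `S` such that, for the union `C` over `n ∈ S` of
the sets `A n` minus the union of all `A m` with `m < n`, and for every `X ⊆ C`: the set `X` is not
covered up to a finite set by finitely many members of `𝒜` if and only if, for infinitely many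
`n ∈ S`, it contains up to a finite set `A n` minus finitely many other members of `𝒜`. -/
theorem result (𝒜 : Set (Set ℕ)) (h : MaxIdealIndep 𝒜) (hlt : #𝒜 < 𝔠) (A : ℕ → Set ℕ)
    (hA : ∀ n, A n ∈ 𝒜) (hinj : Function.Injective A) :
    ∃ S : Set ℕ, S.Infinite ∧ ∀ X : Set ℕ, X ⊆ {z | ∃ n ∈ S, z ∈ A n ∧ ∀ m < n, z ∉ A m} →
      ((∀ F : Finset (Set ℕ), (F : Set (Set ℕ)) ⊆ 𝒜 → (X \ ⋃₀ (F : Set (Set ℕ))).Infinite) ↔
        {n | n ∈ S ∧ ∃ F : Finset (Set ℕ), (F : Set (Set ℕ)) ⊆ 𝒜 \ {A n} ∧
          ((A n \ ⋃₀ (F : Set (Set ℕ))) \ X).Finite}.Infinite) :=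
  exists_local h hlt A hA hinj

end Pool.Agent.Results.MP_35a676_lc.LocalStructure
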