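import Pool.Agent.Lib.MP_35a676_lc.Meager

namespace Pool.Agent.Results.MP_35a676_lc.NowhereMeager

open Cardinal Set Pool.Agent.Lib.MP_35a676_lc

/-- The ideal generated by a maximal ideal independent family `𝒜` of size less than continuum is
nonmeager, and so is its restriction to any set `X`: the set of all binary sequences `x` for which
the part of the support of `x` in `X` is covered up to a finite set by finitely many members of
`𝒜` is not meager in the Cantor space. -/
theorem result (𝒜 : Set (Set ℕ)) (h : MaxIdealIndep 𝒜) (hlt : #𝒜 < 𝔠) (X : Set ℕ) :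
    ¬ IsMeagre {x : ℕ → Bool | ∃ F : Finset (Set ℕ), (F : Set (Set ℕ)) ⊆ 𝒜 ∧
      ({n | n ∈ X ∧ x n = true} \ ⋃₀ (F : Set (Set ℕ))).Finite} :=
  not_isMeagre_ideal h hlt X

end Pool.Agent.Results.MP_35a676_lc.NowhereMeager
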