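import Pool.Agent.Lib.MP_35a676_lc.Reduce

namespace Pool.Agent.Results.MP_35a676_lc.UltraReduction

open Cardinal Set Pool.Agent.Lib.MP_35a676_lc

/-- If there is an infinite maximal ideal independent family of size less than continuum then
there is one of the same size all of whose private filters are ultrafilters. -/
theorem result (𝒜 : Set (Set ℕ)) (h : MaxIdealIndep 𝒜) (hinf : 𝒜.Infinite) (hlt : #𝒜 < 𝔠) :
    ∃ ℬ : Set (Set ℕ), MaxIdealIndep ℬ ∧ Ultra ℬ ∧ #ℬ = #𝒜 :=
  exists_ultra h hinf hlt

end Pool.Agent.Results.MP_35a676_lc.UltraReduction
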